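import Pool.Agent.Lib.MP_c5814c_pr.Final3
import Pool.Agent.Lib.MP_c5814c_pr.Final5

set_option autoImplicit false

/-!
Sharp bounds for the normalised bias of an order statistic as an estimate of a quantile, over the
laws with finite nonzero variance which precede a fixed law in the star order and in the convex
transform order.  The index `j : Fin n` counts from `0`, so that `(j - 1) / (n - 1) ≤ p` of the
problem reads `j / (n - 1) ≤ p` here.
-/

namespace Pool.Agent.Results.MP_c5814c_pr.FourBounds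

open MeasureTheory ProbabilityTheory Set Filter
open scoped ENNReal Topology
open Pool.Agent.Lib.MP_c5814c_pr

/-- The four sharp bounds. -/
theorem result {n : ℕ} (hn : 2 ≤ n) (j : Fin n) {p : ℝ} (hp : p ∈ Ioo (0 : ℝ) 1)
    (hjp : ((j : ℕ) : ℝ) / (n - 1) ≤ p)
    (ω : Measure ℝ) [IsProbabilityMeasure ω] (hc : Continuous (cdf ω))
    (hs : StrictMonoOn (cdf ω) {y | 0 < cdf ω y ∧ cdf ω y < 1}) :
    -- the star family, upper bound
    (BddBelow {y | 0 < cdf ω y} →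
      IsLUB (bias n j p '' starFamily ω) ((1 - cdfU n j p) / √(p * (1 - p))) ∧
      (∀ ν ∈ starFamily ω, bias n j p ν < (1 - cdfU n j p) / √(p * (1 - p)) ∧
        ∫ u in (0 : ℝ)..1, (stdQ ν u - (if u ≤ p then -√((1 - p) / p) else √(p / (1 - p)))) ^ 2
          ≤ 2 * (1 - bias n j p ν / ((1 - cdfU n j p) / √(p * (1 - p)))))) ∧
    -- the star family, lower bound
    (BddBelow {y | 0 < cdf ω y} →
      ∃ s : ℝ, (∀ s', IsSwitch n j s' ↔ s' = s) ∧
      IsGLB (bias n j p '' starFamily ω) (-√(lowSq n j p (min s p))) ∧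
      ∀ ν ∈ starFamily ω, -√(lowSq n j p (min s p)) < bias n j p ν ∧
        ∫ u in (0 : ℝ)..1, (stdQ ν u - HC n j p (min s p) u / √(lowSq n j p (min s p))) ^ 2
          ≤ 2 * (1 - bias n j p ν / (-√(lowSq n j p (min s p))))) ∧
    -- the convex family is nonempty if and only if the negative part of `Y` has a second moment
    ((convexFamily ω).Nonempty ↔ MemLp (fun y => min y 0) 2 ω) ∧
    -- the convex family, upper bound
    ((convexFamily ω).Nonempty →
      ((Integrable (ordStat j) (Measure.pi fun _ : Fin n => ω) ∧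
          ∫ x, ordStat j x ∂(Measure.pi fun _ : Fin n => ω) ≤ quantile ω p) →
        IsLUB (bias n j p '' convexFamily ω) 0 ∧
        (∀ ν ∈ convexFamily ω, bias n j p ν = 0 ↔
          ∫ x, ordStat j x ∂(Measure.pi fun _ : Fin n => ω) = quantile ω p ∧
          ∃ κ > 0, ∃ c, ν = Measure.map (fun y => c + κ * y) ω) ∧
        (∀ t, 0 < cdf ω t → cdf ω t < 1 →
          Measure.map (fun y => min y t) ω ∈ convexFamily ω) ∧
        Tendsto (fun w => bias n j p (Measure.map (fun y => min y (quantile ω w)) ω))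
          (𝓝[>] 0) (𝓝 0)) ∧
      (¬ (Integrable (ordStat j) (Measure.pi fun _ : Fin n => ω) ∧
          ∫ x, ordStat j x ∂(Measure.pi fun _ : Fin n => ω) ≤ quantile ω p) →
        ∃ t : ℝ, (∀ t', IsOpt ω n j p t' ↔ t' = t) ∧
        IsGreatest (bias n j p '' convexFamily ω)
          (((∫ x, min (ordStat j x) t ∂(Measure.pi fun _ : Fin n => ω)) - quantile ω p)
            / √Var[fun y => min y t; ω]) ∧
        ∀ ν ∈ convexFamily ω, bias n j p ν
            = ((∫ x, min (ordStat j x) t ∂(Measure.pi fun _ : Fin n => ω)) - quantile ω p)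
              / √Var[fun y => min y t; ω] ↔
          ∃ κ > 0, ∃ c, ν = Measure.map (fun y => c + κ * min y t) ω)) ∧
    -- the convex family, lower bound
    ((convexFamily ω).Nonempty →
      ∃ P : ℝ → ℝ, IsSol ω n j p P ∧
      (∀ P', IsSol ω n j p P' → ∀ y, 0 < cdf ω y → cdf ω y < 1 → P' y = P y) ∧
      0 < Var[P; ω] ∧
      IsLeast (bias n j p '' convexFamily ω) (-√Var[P; ω]) ∧
      (∀ ν ∈ convexFamily ω, bias n j p ν = -√Var[P; ω] ↔
        ∃ κ > 0, ∃ c, ν = Measure.map (fun y => c - κ * P y) ω) ∧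
      -- the shape of `P` in general
      (∀ x y, 0 < cdf ω x → x < y → y ≤ quantile ω p →
        (∀ t, x < t → t < y → ¬ Tight ω n j P t) →
          ∃ A B, ∀ z, x ≤ z → z ≤ y → P z = A + B * z) ∧
      (∀ t, 0 < cdf ω t → t < quantile ω p →
        (∀ ε > 0, ∃ t', t' ≠ t ∧ |t' - t| < ε ∧ Tight ω n j P t') →
          P t = pdfU n j (cdf ω t) + ∫ z, P z ∂ω) ∧
      (∃ s < quantile ω p, 0 < cdf ω s ∧ ∃ κ > 0, ∀ y, s ≤ y → y ≤ quantile ω p →
        P y = κ * (quantile ω p - y)) ∧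
      -- the explicit cases
      (∀ w0, Shaped ω n j p w0 →
        ∃ v w A B κ : ℝ, 0 ≤ v ∧ v ≤ w ∧ w ≤ p ∧ ((j : ℕ) ≠ 0 → 0 < v) ∧
        ∀ y, 0 < cdf ω y → cdf ω y < 1 →
          (cdf ω y ≤ v → P y = A + B * y) ∧
          (v < cdf ω y → cdf ω y < w → P y = pdfU n j (cdf ω y) + ∫ z, P z ∂ω) ∧
          (w ≤ cdf ω y → cdf ω y ≤ p → P y = κ * (quantile ω p - y))) ∧
      (Shaped ω n j p p ∨ cdfU n j p ≤ p * pdfU n j p →
        (∃ κ > 0, ∀ y, 0 < cdf ω y → cdf ω y < 1 → P y = κ * max (quantile ω p - y) 0) ∧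
        -√Var[P; ω] = ((∫ x, min (ordStat j x) (quantile ω p)
          ∂(Measure.pi fun _ : Fin n => ω)) - quantile ω p)
            / √Var[fun y => min y (quantile ω p); ω])) ∧
    -- the hypothesis on the shape in the main examples
    (((j : ℕ) : ℝ) / (n - 1) = p → Shaped ω n j p p) ∧
    ((∀ y ∈ Icc (0 : ℝ) 1, cdf ω y = y) → ∃ w0, Shaped ω n j p w0) ∧
    ((∀ y, 0 ≤ y → cdf ω y = 1 - Real.exp (-y)) → ∃ w0, Shaped ω n j p w0) := by
  have hω : Nice ω := ⟨inferInstance, hc, hs⟩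
  have hn1 : (0 : ℝ) < n - 1 := by
    have : (2 : ℝ) ≤ n := by exact_mod_cast hn
    linarith
  have hjp' : ((j : ℕ) : ℝ) ≤ (n - 1) * p := by
    rw [div_le_iff₀ hn1] at hjp
    linarith
  have hj : (j : ℕ) + 1 < n := by
    have h1 : ((j : ℕ) : ℝ) < n - 1 := by
      have := mul_lt_mul_of_pos_left hp.2 hn1
      linarith
    have h2 : (((j : ℕ) + 1 : ℕ) : ℝ) < n := by push_cast; linarith
    exact_mod_cast h2
  refine ⟨fun hb => ?_, fun hb => ?_, nonempty_iff hω, fun hne => ?_, fun hne => ?_, fun he => ?_,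
    fun hu => ?_, fun hu => ?_⟩
  · obtain ⟨h1, h2⟩ := star_upper hω hb hp hjp'
    exact ⟨h1, fun ν hν => ⟨h2 ν hν, stdQ_upper hp hjp' hν.1⟩⟩
  · obtain ⟨s, hs1, hs2⟩ := existsUnique_isSwitch hj
    have hm0 : 0 ≤ min s p := le_min (switch_nonneg hs1) hp.1.le
    have hsq : ∫ v, HC n j p (min s p) v ^ 2 ∂unif = lowSq n j p (min s p) :=
      integral_HC_sq hm0 (min_le_right _ _) hp
    obtain ⟨h1, h2⟩ := star_lower hω hb hj hp hjp' hs1 rfl
    refine ⟨s, fun s' => ⟨fun h => hs2 s' h, fun h => h ▸ hs1⟩, h1, fun ν hν => ⟨h2 ν hν, ?_⟩⟩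
    have := stdQ_lower hj hp hjp' hs1 rfl hν.1
    rwa [hsq] at this
  · obtain ⟨t0, h0⟩ := memLp_of_nonempty hω hne
    refine ⟨fun h => ?_, fun h => ?_⟩
    · obtain ⟨h1, h2⟩ := convex_zero hω h0 hp h.1 h.2
      exact ⟨h1, h2, fun t ht1 ht2 => trunc_mem_family hω h0 ⟨ht1, ht2⟩,
        tendsto_bias_trunc hω h0 hp⟩
    · obtain ⟨t, h1, h2, h3, h4⟩ := convex_pos hω h0 hj hp hjp' h
      have hopt : ∀ t', IsOpt ω n j p t' ↔ Opt ω n j p t' := by
        intro t'
        unfold IsOpt Opt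
        rw [en_eq hω, mn_eq hω, vr_eq' hω h0]
      refine ⟨t, fun t' => ?_, ?_, ?_⟩
      · rw [hopt]
        exact ⟨fun h => h2 t' h, fun h => h ▸ h1⟩
      · rw [en_eq hω, vr_eq' hω h0]; exact h3
      · intro ν hν
        rw [en_eq hω, vr_eq' hω h0]; exact h4 ν hν
  · obtain ⟨t0, h0⟩ := memLp_of_nonempty hω hne
    obtain ⟨P, h1, h2, h3, h4, h5, h6, h7⟩ := convex_low hω h0 hj hp
    have hPr := (isSol_iff hω h0 hp).1 h1
    obtain ⟨k1, k2, k3⟩ := general_shape hω h0 hp hPr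
    refine ⟨P, h1, fun P' h y hy1 hy2 => h2 P' h y ⟨hy1, hy2⟩, h3, h4, h5, k1, k2, k3,
      fun w0 hw => ?_, fun hw => ?_⟩
    · obtain ⟨v, w, A, B, κ, g1, g2, g3, g4, g5⟩ := h7 w0 hw.1 hw.2.1 hw.2.2.1 hw.2.2.2
      exact ⟨v, w, A, B, κ, g1, g2, g3, g4, fun y hy1 hy2 => g5 y ⟨hy1, hy2⟩⟩
    · have hK : ∃ κ : ℝ, 0 < κ ∧ IsProj ω n j p (fun y => κ * max (quantile ω p - y) 0) := by
        rcases hw with hw | hw
        · exact single_hinge hω h0 hj hp hw.2.2.1
        · exact hinge_of_gap hω h0 hj hp hw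
      obtain ⟨κ, hκ, hK⟩ := hK
      obtain ⟨g1, g2⟩ := hinge_value hω h0 hp hPr hκ hK
      refine ⟨⟨κ, hκ, fun y hy1 hy2 => g2 y ⟨hy1, hy2⟩⟩, ?_⟩
      rw [g1, en_eq hω, vr_eq' hω h0]
  · have hset : ∀ y ∈ {y | 0 < cdf ω y ∧ p ≤ cdf ω y ∧ cdf ω y ≤ p},
        pdfU n j p = pdfU n j (cdf ω y) := by
      intro y hy
      rw [le_antisymm hy.2.2 hy.2.1]
    refine ⟨he.le, le_rfl, ?_, ?_⟩
    · rw [he]
      exact (concaveOn_const _ (strip_ordConnected _ _).convex).congr hset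
    · exact (convexOn_const _ (strip_ordConnected _ _).convex).congr hset
  · exact shaped_uniform hω hu hj hp hjp
  · exact shaped_exp hω hu hj hp hjp

end Pool.Agent.Results.MP_c5814c_pr.FourBounds
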