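import Pool.Agent.Lib.MP_c5814c_pr.Shape6

/-!
# The sharp lower bound on the bias over the dual convex family as the solution of a finite system

`W` is a reference distribution function for which `y ↦ -f(W(y))`, `f` the density of the `j`-th
uniform order statistic, is convex first and concave after on `{(j-1)/(n-1) ≤ W ≤ p}`; the uniform
and the exponential laws are examples.  Then the minimiser of the normalised bias over `F ⪯_c W`
has a quantile function made of at most three explicit pieces, determined by a finite system of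
equations.
-/

set_option autoImplicit false

namespace Pool.Agent.Results.MP_c5814c_pr.LowerSystem

open MeasureTheory ProbabilityTheory Set Filter Topology Pool.Agent.Lib.QBias

/-- The sharp lower bound over the dual convex family: the system has a solution, and every
solution gives the infimum and all the distributions attaining it.  The hypothesis on `W` holds
for the uniform and the exponential law. -/
theorem result :
    (∀ W : ℝ → ℝ, IsRef W → ∀ (n j : ℕ) (p : ℝ), 2 ≤ n → 1 ≤ j → j ≤ n → 0 < p → p < 1 →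
      ((j : ℝ) - 1) / ((n : ℝ) - 1) ≤ p → (CFam W).Nonempty → CvxCnc W n j p →
      (∃ v1 v2 a1 b1 a2 b2 : ℝ, Sys W n j p v1 v2 a1 b1 a2 b2) ∧
      ∀ v1 v2 a1 b1 a2 b2 : ℝ, Sys W n j p v1 v2 a1 b1 a2 b2 →
        lawOf (pieces W n j p v1 v2 a1 b1 a2 b2) ∈ CFam W ∧
        IsLeast (bias n j p '' CFam W)
          (-√(∫ u in Ioo (0:ℝ) 1, pieces W n j p v1 v2 a1 b1 a2 b2 u ^ 2)) ∧
        ∀ μ ∈ CFam W,
          bias n j p μ = -√(∫ u in Ioo (0:ℝ) 1, pieces W n j p v1 v2 a1 b1 a2 b2 u ^ 2) ↔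
            ∃ b c : ℝ, 0 < c ∧
              μ = (lawOf (pieces W n j p v1 v2 a1 b1 a2 b2)).map (fun x => b + c * x)) ∧
    (IsRef unifW ∧ (CFam unifW).Nonempty) ∧ (IsRef expW ∧ (CFam expW).Nonempty) ∧
    ∀ (n j : ℕ) (p : ℝ), 2 ≤ n → 1 ≤ j → j ≤ n → 0 < p → p < 1 →
      ((j : ℝ) - 1) / ((n : ℝ) - 1) ≤ p → CvxCnc unifW n j p ∧ CvxCnc expW n j p := by
  refine ⟨fun W hW n j p hn hj hjn hp0 hp1 hp hne hU => ?_, ⟨isRef_unifW, nonempty_unif_exp.1⟩,
    ⟨isRef_expW, nonempty_unif_exp.2⟩, fun n j p hn hj hjn hp0 hp1 hp => ?_⟩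
  · exact conv_inf_system hW ((conv_nonempty hW).1 hne) ⟨hn, hj, hjn, hp0, hp1, hp⟩ hU
  · have P : Par n j p := ⟨hn, hj, hjn, hp0, hp1, hp⟩
    exact ⟨cvxcnc_unif P, cvxcnc_exp P⟩

end Pool.Agent.Results.MP_c5814c_pr.LowerSystem
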